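import Mathlib

set_option autoImplicit false

/-!
# Outer automorphism groups
-/

namespace Pool.Agent.H416.OF

universe u

theorem conj_range_normal (Γ : Type u) [Group Γ] : (MulAut.conj (G := Γ)).range.Normal := by
  refine ⟨?_⟩
  rintro _ ⟨x, rfl⟩ φ
  refine ⟨φ x, ?_⟩
  apply MulEquiv.ext
  intro y
  simp only [MulAut.conj_apply, MulAut.mul_apply, map_mul, map_inv, MulAut.apply_inv_self]

instance (Γ : Type u) [Group Γ] : (MulAut.conj (G := Γ)).range.Normal := conj_range_normal Γ

/-- The group of outer automorphisms of a group: the quotient of the group of automorphisms by the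
subgroup of the inner automorphisms. -/
abbrev Out (Γ : Type u) [Group Γ] : Type u := MulAut Γ ⧸ (MulAut.conj (G := Γ)).range

end Pool.Agent.H416.OF
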