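import Pool.Agent.H416.OF.Tasks1

/-!
# Project OF (helper416), task OF1 (helper922): the representations of `Out(Γ)` on
# `ℚ[Γ] / (I ^ c + [ℚ[Γ], ℚ[Γ]])`
-/

set_option autoImplicit false

namespace Pool.Agent.H922.OF1

open Pool.Agent.H416.LG (augI)
open Pool.Agent.H263.LG7
open Pool.Agent.H416.OF

universe u

variable {Γ : Type u} [Group Γ]

theorem hat_Cm (φ : MulAut Γ) : ∀ a ∈ Cm Γ, hat φ a ∈ Cm Γ := by
  intro a ha
  unfold Cm at ha
  induction ha using Submodule.span_induction with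
  | mem x hx =>
    obtain ⟨b, c, rfl⟩ := hx
    rw [map_sub, map_mul, map_mul]
    exact Submodule.subset_span ⟨_, _, rfl⟩
  | zero =>
    rw [map_zero]
    exact Submodule.zero_mem _
  | add x y _ _ hx hy =>
    rw [map_add]
    exact Submodule.add_mem _ hx hy
  | smul r x _ hx =>
    rw [map_smul]
    exact Submodule.smul_mem _ _ hx

theorem hat_Wc (φ : MulAut Γ) (c : ℕ) : ∀ a ∈ Wc Γ c, hat φ a ∈ Wc Γ c := by
  intro a ha
  obtain ⟨x, hx, y, hy, rfl⟩ := Submodule.mem_sup.1 ha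
  rw [map_add]
  exact Submodule.add_mem_sup (hat_pow φ c x hx) (hat_Cm φ y hy)

theorem hat_conj (x : Γ) (a : MonoidAlgebra ℚ Γ) :
    hat (MulAut.conj x) a = MonoidAlgebra.of ℚ Γ x * a * MonoidAlgebra.of ℚ Γ x⁻¹ := by
  induction a using MonoidAlgebra.induction_on with
  | of y =>
    rw [hat_of, MulAut.conj_apply, map_mul, map_mul]
  | add a b ha hb => rw [map_add, ha, hb, mul_add, add_mul]
  | smul r a ha => rw [map_smul, ha, mul_smul_comm, smul_mul_assoc]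

theorem conj_sub_mem (x : Γ) (c : ℕ) (a : MonoidAlgebra ℚ Γ) :
    hat (MulAut.conj x) a - a ∈ Wc Γ c := by
  have e : hat (MulAut.conj x) a - a =
      (MonoidAlgebra.of ℚ Γ x * a) * MonoidAlgebra.of ℚ Γ x⁻¹ -
        MonoidAlgebra.of ℚ Γ x⁻¹ * (MonoidAlgebra.of ℚ Γ x * a) := by
    rw [hat_conj, ← mul_assoc (MonoidAlgebra.of ℚ Γ x⁻¹), ← map_mul, inv_mul_cancel, map_one,
      one_mul]
  rw [e]
  exact Submodule.mem_sup_right (Submodule.subset_span ⟨_, _, rfl⟩)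

theorem fin_Wc {S : Finset Γ} (hS : Subgroup.closure (S : Set Γ) = ⊤) (c : ℕ) :
    Module.Finite ℚ (MonoidAlgebra ℚ Γ ⧸ Wc Γ c) := by
  have := fin_quot hS c
  have hle : PP Γ c ≤ LinearMap.ker (Wc Γ c).mkQ := by
    rw [Submodule.ker_mkQ]
    exact le_sup_left
  refine Module.Finite.of_surjective ((PP Γ c).liftQ (Wc Γ c).mkQ hle) ?_
  intro w
  obtain ⟨a, rfl⟩ := Submodule.mkQ_surjective _ w
  exact ⟨(PP Γ c).mkQ a, rfl⟩

/-- the representation on the quotient -/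
noncomputable def ss (Γ : Type u) [Group Γ] (c : ℕ) :
    MulAut Γ →* Module.End ℚ (MonoidAlgebra ℚ Γ ⧸ Wc Γ c) where
  toFun φ := (Wc Γ c).mapQ (Wc Γ c) (hat φ).toLinearMap (fun a ha => hat_Wc φ c a ha)
  map_one' := by
    apply LinearMap.ext
    intro w
    obtain ⟨a, rfl⟩ := Submodule.mkQ_surjective _ w
    show (Wc Γ c).mkQ (hat 1 a) = (Wc Γ c).mkQ a
    rw [hat_one]
  map_mul' φ ψ := by
    apply LinearMap.ext
    intro w
    obtain ⟨a, rfl⟩ := Submodule.mkQ_surjective _ w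
    show (Wc Γ c).mkQ (hat (φ * ψ) a) = (Wc Γ c).mkQ (hat φ (hat ψ a))
    rw [hat_mul]

theorem ss_mk (c : ℕ) (φ : MulAut Γ) (a : MonoidAlgebra ℚ Γ) :
    ss Γ c φ ((Wc Γ c).mkQ a) = (Wc Γ c).mkQ (hat φ a) := rfl

theorem ss_conj (c : ℕ) (x : Γ) : ss Γ c (MulAut.conj x) = 1 := by
  apply LinearMap.ext
  intro w
  obtain ⟨a, rfl⟩ := Submodule.mkQ_surjective _ w
  show (Wc Γ c).mkQ (hat (MulAut.conj x) a) = (Wc Γ c).mkQ a
  rw [← sub_eq_zero, ← map_sub, Submodule.mkQ_apply, Submodule.Quotient.mk_eq_zero]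
  exact conj_sub_mem x c a

theorem OF1_holds : S_OF1.{u} := by
  intro Γ _ hFG φ h c
  obtain ⟨S, hS⟩ := hFG.out
  have := fin_Wc hS c
  have : Module.Free ℚ (MonoidAlgebra ℚ Γ ⧸ Wc Γ c) := Module.Free.of_divisionRing ℚ _
  let b := Module.finBasis ℚ (MonoidAlgebra ℚ Γ ⧸ Wc Γ c)
  let e := LinearMap.toMatrixAlgEquiv b
  let ρ : MulAut Γ →* GL (Fin (Module.finrank ℚ (MonoidAlgebra ℚ Γ ⧸ Wc Γ c))) ℚ :=
    (Units.map (e : Module.End ℚ (MonoidAlgebra ℚ Γ ⧸ Wc Γ c) →* _)).comp (ss Γ c).toHomUnits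
  have hρ : ∀ x : Γ, ρ (MulAut.conj x) = 1 := by
    intro x
    apply Units.ext
    show e (ss Γ c (MulAut.conj x)) = 1
    rw [ss_conj, map_one]
  obtain ⟨n, hn, h1⟩ := h _ ρ hρ
  refine ⟨n, hn, fun a => ?_⟩
  rw [← map_pow] at h1
  have h2 : e (ss Γ c (φ ^ n)) = 1 := congrArg Units.val h1
  have h3 : ss Γ c (φ ^ n) = 1 := by
    apply e.injective
    rw [h2, map_one]
  have h4 : ss Γ c (φ ^ n) ((Wc Γ c).mkQ a) = (Wc Γ c).mkQ a := by
    rw [h3]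
    rfl
  rw [ss_mk, ← sub_eq_zero, ← map_sub, Submodule.mkQ_apply, Submodule.Quotient.mk_eq_zero] at h4
  exact h4

end Pool.Agent.H922.OF1
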