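import Pool.Agent.H416.OF.Tasks1

/-!
# Project OF (helper416), task OF2: the unipotent part
-/

set_option autoImplicit false

namespace Pool.Agent.H725.OF2

open Pool.Agent.H416.OF
open Pool.Agent.H416.LG (augI)
open Pool.Agent.H263.LG7

universe u

variable {Γ : Type u} [Group Γ]

theorem hat_Cm (φ : MulAut Γ) : ∀ a ∈ Cm Γ, hat φ a ∈ Cm Γ := by
  intro a ha
  unfold Cm at ha
  induction ha using Submodule.span_induction with
  | mem z hz =>
    obtain ⟨a, b, rfl⟩ := hz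
    rw [map_sub, map_mul, map_mul]
    exact Submodule.subset_span ⟨_, _, rfl⟩
  | zero =>
    rw [map_zero]
    exact Submodule.zero_mem _
  | add x y _ _ hx hy =>
    rw [map_add]
    exact Submodule.add_mem _ hx hy
  | smul q x _ hx =>
    rw [map_smul]
    exact Submodule.smul_mem _ _ hx

theorem left_mem {c : ℕ} {a : MonoidAlgebra ℚ Γ} (h : a ∈ augI Γ ^ c) : a ∈ Wc Γ c :=
  Submodule.mem_sup_left (S := (augI Γ ^ c).restrictScalars ℚ) h

theorem right_mem (c : ℕ) {a : MonoidAlgebra ℚ Γ} (h : a ∈ Cm Γ) : a ∈ Wc Γ c :=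
  Submodule.mem_sup_right h

theorem split {c : ℕ} {a : MonoidAlgebra ℚ Γ} (h : a ∈ Wc Γ c) :
    ∃ b ∈ augI Γ ^ c, ∃ d ∈ Cm Γ, b + d = a := by
  obtain ⟨b, hb, d, hd, e⟩ := Submodule.mem_sup.1 h
  exact ⟨b, hb, d, hd, e⟩

theorem Wc_le {c d : ℕ} (h : c ≤ d) {a : MonoidAlgebra ℚ Γ} (ha : a ∈ Wc Γ d) : a ∈ Wc Γ c := by
  obtain ⟨b, hb, e, he, rfl⟩ := split ha
  exact Submodule.add_mem _ (left_mem (pow_le h hb)) (right_mem c he)

theorem sub_eps_mem (a : MonoidAlgebra ℚ Γ) : a - (eps Γ a) • (1 : MonoidAlgebra ℚ Γ) ∈ augI Γ := by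
  rw [mem_augI, map_sub, map_smul, map_one, smul_eq_mul, mul_one, sub_self]

theorem Cm_two {a : MonoidAlgebra ℚ Γ} (ha : a ∈ Cm Γ) : a ∈ augI Γ ^ 2 := by
  unfold Cm at ha
  induction ha using Submodule.span_induction with
  | mem z hz =>
    obtain ⟨a, b, rfl⟩ := hz
    have e : a * b - b * a =
        (a - (eps Γ a) • (1 : MonoidAlgebra ℚ Γ)) * (b - (eps Γ b) • (1 : MonoidAlgebra ℚ Γ)) -
        (b - (eps Γ b) • (1 : MonoidAlgebra ℚ Γ)) * (a - (eps Γ a) • (1 : MonoidAlgebra ℚ Γ)) := by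
      simp only [sub_mul, mul_sub, smul_mul_assoc, mul_smul_comm, one_mul, mul_one, smul_sub,
        smul_smul]
      rw [mul_comm (eps Γ b) (eps Γ a)]
      abel
    rw [e, Submodule.pow_succ (n := 1), Submodule.pow_one]
    exact Submodule.sub_mem _ (Submodule.mul_mem_mul (sub_eps_mem a) (sub_eps_mem b))
      (Submodule.mul_mem_mul (sub_eps_mem b) (sub_eps_mem a))
  | zero => exact Submodule.zero_mem _
  | add x y _ _ hx hy => exact Submodule.add_mem _ hx hy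
  | smul q x _ hx => exact smul_mem' q hx

theorem W_two {a : MonoidAlgebra ℚ Γ} (ha : a ∈ Wc Γ 2) : a ∈ augI Γ ^ 2 := by
  obtain ⟨b, hb, e, he, rfl⟩ := split ha
  exact Submodule.add_mem _ hb (Cm_two he)

theorem unip' {ψ : MulAut Γ} (h2 : ∀ a, hat ψ a - a ∈ augI Γ ^ 2) {c n : ℕ} (hn : 0 < n)
    (hc : ∀ a, hat (ψ ^ n) a - a ∈ Wc Γ c) (k : ℕ) (hk : k ≤ c) :
    ∀ a, hat ψ a - a ∈ Wc Γ k := by
  induction k with
  | zero => exact fun a => left_mem (mem_pow_zero _)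
  | succ k ih =>
    intro a
    have hN := ih (by omega) a
    obtain ⟨N, hNdef⟩ : ∃ N, N = hat ψ a - a := ⟨_, rfl⟩
    rw [← hNdef] at hN ⊢
    have h3 := hc a
    rw [sum_iter, ← hNdef] at h3
    have h4 : ∑ i ∈ Finset.range n, (hat (ψ ^ i) N - N) ∈ Wc Γ (k + 1) := by
      refine Submodule.sum_mem _ fun i _ => ?_
      obtain ⟨b, hb, d, hd, e⟩ := split hN
      have e2 : hat (ψ ^ i) N - N = (hat (ψ ^ i) b - b) + (hat (ψ ^ i) d - d) := by
        rw [← e, map_add]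
        abel
      rw [e2]
      exact Submodule.add_mem _ (left_mem (iter_mem (step2 h2 k) i b hb))
        (right_mem _ (Submodule.sub_mem _ (hat_Cm _ _ hd) hd))
    have h5 : ∑ i ∈ Finset.range n, hat (ψ ^ i) N ∈ Wc Γ (k + 1) := Wc_le hk h3
    have h6 : (n : ℚ) • N = ∑ i ∈ Finset.range n, hat (ψ ^ i) N -
        ∑ i ∈ Finset.range n, (hat (ψ ^ i) N - N) := by
      rw [Finset.sum_sub_distrib, Finset.sum_const, Finset.card_range, Nat.cast_smul_eq_nsmul]
      abel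
    have h7 : (n : ℚ) • N ∈ Wc Γ (k + 1) := by
      rw [h6]
      exact Submodule.sub_mem _ h5 h4
    have h8 := Submodule.smul_mem _ ((n : ℚ)⁻¹) h7
    rwa [smul_smul, inv_mul_cancel₀ (by positivity), one_smul] at h8

theorem OF2_holds : S_OF2.{u} := by
  intro Γ _ φ H
  obtain ⟨m, hm, h2⟩ := H 2
  refine ⟨m, hm, fun c a => ?_⟩
  obtain ⟨n, hn, h3⟩ := H c
  have h5 : ∀ i : ℕ, ∀ a, hat ((φ ^ n) ^ i) a - a ∈ Wc Γ c := by
    intro i
    induction i with
    | zero =>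
      intro a
      rw [pow_zero, hat_one, sub_self]
      exact Submodule.zero_mem _
    | succ i ih =>
      intro a
      have e : hat ((φ ^ n) ^ (i + 1)) a - a =
          (hat ((φ ^ n) ^ i) (hat (φ ^ n) a) - hat (φ ^ n) a) + (hat (φ ^ n) a - a) := by
        rw [pow_succ, hat_mul]
        abel
      rw [e]
      exact Submodule.add_mem _ (ih _) (h3 a)
  have h4 : ∀ a, hat ((φ ^ m) ^ n) a - a ∈ Wc Γ c := by
    intro a
    rw [← pow_mul, mul_comm, pow_mul]
    exact h5 m a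
  exact unip' (fun a => W_two (h2 a)) hn h4 c le_rfl a

end Pool.Agent.H725.OF2
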