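import Pool.Agent.H416.OF.Tasks1

set_option autoImplicit false

/-!
# Project OF (helper416), task OF3 (helper928): traces
-/

namespace Pool.Agent.H928.OF

open Polynomial
open Pool.Agent.H416.OF
open Pool.Agent.H416.LG (augI)
open Pool.Agent.H263.LG7 (hat eps mem_augI eps_of hat_of mem_pow_zero)

universe u

variable {Γ : Type u} [Group Γ]

/-- The extension to the group algebra. -/
noncomputable def rep (ρ : Γ →* Matrix (Fin 2) (Fin 2) ℚ[X]) :
    MonoidAlgebra ℚ Γ →ₐ[ℚ] Matrix (Fin 2) (Fin 2) ℚ[X] :=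
  MonoidAlgebra.lift ℚ (Matrix (Fin 2) (Fin 2) ℚ[X]) Γ ρ

theorem rep_of (ρ : Γ →* Matrix (Fin 2) (Fin 2) ℚ[X]) (x : Γ) :
    rep ρ (MonoidAlgebra.of ℚ Γ x) = ρ x := by
  unfold rep
  rw [MonoidAlgebra.lift_of]

theorem rep_aug (ρ : Γ →* Matrix (Fin 2) (Fin 2) ℚ[X])
    (h : ∀ (x : Γ) (i j : Fin 2), X ∣ (ρ x - 1) i j) (a : MonoidAlgebra ℚ Γ) :
    ∀ i j : Fin 2, X ∣ (rep ρ a - eps Γ a • (1 : Matrix (Fin 2) (Fin 2) ℚ[X])) i j := by
  induction a using MonoidAlgebra.induction_on with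
  | of x =>
    rw [rep_of, eps_of, one_smul]
    exact h x
  | add a b ha hb =>
    intro i j
    have e : rep ρ (a + b) - eps Γ (a + b) • (1 : Matrix (Fin 2) (Fin 2) ℚ[X]) =
        (rep ρ a - eps Γ a • (1 : Matrix (Fin 2) (Fin 2) ℚ[X])) +
          (rep ρ b - eps Γ b • (1 : Matrix (Fin 2) (Fin 2) ℚ[X])) := by
      rw [map_add, map_add, add_smul]
      abel
    rw [e, Matrix.add_apply]
    exact dvd_add (ha i j) (hb i j)
  | smul r a ha =>
    intro i j
    have e : rep ρ (r • a) - eps Γ (r • a) • (1 : Matrix (Fin 2) (Fin 2) ℚ[X]) =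
        r • (rep ρ a - eps Γ a • (1 : Matrix (Fin 2) (Fin 2) ℚ[X])) := by
      rw [map_smul, map_smul, smul_sub, smul_assoc]
    rw [e, Matrix.smul_apply, smul_eq_C_mul]
    exact Dvd.dvd.mul_left (ha i j) _

theorem rep_augI (ρ : Γ →* Matrix (Fin 2) (Fin 2) ℚ[X])
    (h : ∀ (x : Γ) (i j : Fin 2), X ∣ (ρ x - 1) i j) (a : MonoidAlgebra ℚ Γ) (ha : a ∈ augI Γ) :
    ∀ i j : Fin 2, X ∣ rep ρ a i j := by
  intro i j
  have h1 := rep_aug ρ h a i j
  rw [mem_augI] at ha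
  rw [ha, zero_smul, sub_zero] at h1
  exact h1

theorem rep_pow (ρ : Γ →* Matrix (Fin 2) (Fin 2) ℚ[X])
    (h : ∀ (x : Γ) (i j : Fin 2), X ∣ (ρ x - 1) i j) (c : ℕ) :
    ∀ a ∈ augI Γ ^ c, ∀ i j : Fin 2, X ^ c ∣ rep ρ a i j := by
  induction c with
  | zero =>
    intro a _ i j
    rw [pow_zero]
    exact one_dvd _
  | succ c ih =>
    intro a ha
    rw [Submodule.pow_succ] at ha
    induction ha using Submodule.mul_induction_on' with
    | mem_mul_mem b hb d hd =>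
      intro i j
      rw [map_mul, Matrix.mul_apply]
      apply Finset.dvd_sum
      intro k _
      rw [pow_succ]
      exact mul_dvd_mul (ih b hb i k) (rep_augI ρ h d hd k j)
    | add x _ y _ hx hy =>
      intro i j
      rw [map_add, Matrix.add_apply]
      exact dvd_add (hx i j) (hy i j)

theorem trace_cm (ρ : Γ →* Matrix (Fin 2) (Fin 2) ℚ[X]) (a : MonoidAlgebra ℚ Γ) (ha : a ∈ Cm Γ) :
    (rep ρ a).trace = 0 := by
  unfold Cm at ha
  induction ha using Submodule.span_induction with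
  | mem x hx =>
    obtain ⟨b, d, rfl⟩ := hx
    rw [map_sub, map_mul, map_mul, Matrix.trace_sub, Matrix.trace_mul_comm, sub_self]
  | zero => rw [map_zero, Matrix.trace_zero]
  | add x y _ _ hx hy => rw [map_add, Matrix.trace_add, hx, hy, add_zero]
  | smul r x _ hx => rw [map_smul, Matrix.trace_smul, hx, smul_zero]

theorem trace_wc (ρ : Γ →* Matrix (Fin 2) (Fin 2) ℚ[X])
    (h : ∀ (x : Γ) (i j : Fin 2), X ∣ (ρ x - 1) i j) (c : ℕ) (a : MonoidAlgebra ℚ Γ)
    (ha : a ∈ Wc Γ c) : X ^ c ∣ (rep ρ a).trace := by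
  unfold Wc at ha
  rw [Submodule.mem_sup] at ha
  obtain ⟨b, hb, d, hd, rfl⟩ := ha
  rw [map_add, Matrix.trace_add, trace_cm ρ d hd, add_zero]
  rw [Matrix.trace]
  apply Finset.dvd_sum
  intro i _
  rw [Matrix.diag_apply]
  exact rep_pow ρ h c b hb i i

/-- **OF3.** -/
theorem OF3_holds : S_OF3.{u} := by
  intro Γ _ ψ hψ ρ h w
  have key : ∀ c : ℕ, X ^ c ∣ ((ρ (ψ w)).trace - (ρ w).trace : ℚ[X]) := by
    intro c
    have h1 := trace_wc ρ h c _ (hψ c (MonoidAlgebra.of ℚ Γ w))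
    rw [hat_of, map_sub, rep_of, rep_of, Matrix.trace_sub] at h1
    exact h1
  have h0 : ((ρ (ψ w)).trace - (ρ w).trace : ℚ[X]) = 0 := by
    by_contra hne
    have h2 := natDegree_le_of_dvd
      (key (((ρ (ψ w)).trace - (ρ w).trace : ℚ[X]).natDegree + 1)) hne
    rw [natDegree_X_pow] at h2
    omega
  exact sub_eq_zero.1 h0

end Pool.Agent.H928.OF
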