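import Mathlib

set_option autoImplicit false

/-!
# Project OF (helper416): outer automorphisms of free groups have infinite order in a linear
# representation (part 1: matrices and words)

For a letter `y : α × Bool` of the free group `FreeGroup α` let `y' = (y.1, !y.2)` be the inverse letter.
-/

namespace Pool.Agent.H416.OF

open Polynomial

universe u

/-- The matrix `1 + s X N_c`, where `N_c = v (J v)^T`, `v = (1, c)`, `J v = (-c, 1)`, so `N_c ^ 2 = 0`. -/
noncomputable def E (s c : ℚ) : Matrix (Fin 2) (Fin 2) ℚ[X] :=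
  !![1 - C (s * c) * X, C s * X; -(C (s * c ^ 2) * X), 1 + C (s * c) * X]

variable {α : Type u}

/-- The sign of a letter. -/
def sg (b : Bool) : ℚ := if b then 1 else -1

/-- The matrix of a letter. -/
noncomputable def Lm (c : α × Bool → ℚ) (y : α × Bool) : Matrix (Fin 2) (Fin 2) ℚ[X] :=
  E (sg y.2) (c y) * E (sg y.2) (c (y.1, !y.2))

theorem E_mul_E (s c : ℚ) : E s c * E (-s) c = 1 := by
  unfold E
  refine Matrix.ext fun i j => ?_
  fin_cases i <;> fin_cases j <;>
    simp [Matrix.mul_apply, Fin.sum_univ_two, C_mul, C_neg, C_pow] <;> ring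

theorem Lm_mul (c : α × Bool → ℚ) (x : α) : Lm c (x, true) * Lm c (x, false) = 1 := by
  have h1 : Lm c (x, true) * Lm c (x, false) =
      E 1 (c (x, true)) * (E 1 (c (x, false)) * E (-1) (c (x, false))) * E (-1) (c (x, true)) := by
    simp only [Lm, sg, Bool.not_true, Bool.not_false, if_true, Bool.false_eq_true, if_false]
    simp only [Matrix.mul_assoc]
  rw [h1, E_mul_E, Matrix.mul_one, E_mul_E]

/-- The generators as units. -/
noncomputable def U (c : α × Bool → ℚ) (x : α) : (Matrix (Fin 2) (Fin 2) ℚ[X])ˣ where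
  val := Lm c (x, true)
  inv := Lm c (x, false)
  val_inv := Lm_mul c x
  inv_val := mul_eq_one_comm.1 (Lm_mul c x)

/-- The representation of the free group. -/
noncomputable def rep (c : α × Bool → ℚ) : FreeGroup α →* Matrix (Fin 2) (Fin 2) ℚ[X] :=
  (Units.coeHom _).comp (FreeGroup.lift (U c))

theorem rep_mk (c : α × Bool → ℚ) (L : List (α × Bool)) :
    rep c (FreeGroup.mk L) = (L.map (Lm c)).prod := by
  unfold rep
  rw [MonoidHom.comp_apply, FreeGroup.lift_mk, map_list_prod, List.map_map]
  congr 1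
  refine List.map_congr_left fun y _ => ?_
  obtain ⟨x, b⟩ := y
  cases b <;> rfl

/-- `deg w` is the degree of the trace of the matrix of `w`. -/
noncomputable def deg (c : α × Bool → ℚ) (w : FreeGroup α) : ℕ := (rep c w).trace.natDegree

/-- The degree is invariant under conjugation. -/
theorem deg_conj (c : α × Bool → ℚ) (u w : FreeGroup α) : deg c (u * w * u⁻¹) = deg c w := by
  unfold deg
  rw [map_mul, Matrix.trace_mul_comm, ← map_mul, ← mul_assoc, inv_mul_cancel, one_mul]

/-! ## OF4 -/

/-- **OF4.** Degrees of the traces of cyclically reduced words.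

Proof. For a letter `y` let `s y = c y` (start), `e y = c (y.1, !y.2)` (end). With
`v_a = (1, a)` and `w_a = (-a, 1)` one has `N_a = v_a w_a^T`, `w_a · v_b = b - a`, so the entries of
`Lm c y = (1 + σ X N_s) (1 + σ X N_e)`, `σ = ±1`, have degree at most `2`, and the matrix of the
coefficients of `X ^ 2` is `N_s N_e = (e - s) v_s w_e^T`. By induction on the length `ℓ` of a word
`y_1 … y_ℓ` (`ℓ ≥ 1`) all entries of the product have degree `≤ 2 ℓ` and the matrix of the coefficients of
`X ^ (2 ℓ)` is `κ v_{s(y_1)} w_{e(y_ℓ)}^T` with `κ = ∏ (e(y_k) - s(y_k)) ∏_{k < ℓ} (s(y_{k+1}) - e(y_k))`. Each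
factor is nonzero: `c` is injective, and `s(y_{k+1}) = e(y_k)` would mean `y_{k+1} = y_k'`, excluded as the
word is reduced. (State the induction as: there is `κ ≠ 0` such that …, for the nonempty reduced words, adding
letters on the left, keeping the first and the last letter in the statement.) The trace has degree
`≤ 2 ℓ`, and its coefficient of `X ^ (2 ℓ)` is `κ (s(y_1) - e(y_ℓ)) ≠ 0`, because the word is cyclically
reduced. For the empty word the trace is `2`. -/
def S_OF4 : Prop :=
  ∀ (α : Type u) (c : α × Bool → ℚ), Function.Injective c → ∀ L : List (α × Bool),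
    FreeGroup.IsCyclicallyReduced L → deg c (FreeGroup.mk L) = 2 * L.length

/-! ## OF5 -/

/-- **OF5.** The representation is trivial modulo `X`.

Proof. `rep c w = (L.map (Lm c)).prod` for a word `L` of `w` (`FreeGroup.mk`, `rep_mk`); the matrices `E s c`
are congruent to `1` modulo `X`, and products of such matrices are (or apply the ring homomorphism
`X ↦ 0`, `Polynomial.evalRingHom 0`, entrywise (`RingHom.mapMatrix`) and `Polynomial.X_dvd_iff`). -/
def S_OF5 : Prop :=
  ∀ (α : Type u) (c : α × Bool → ℚ) (w : FreeGroup α) (i j : Fin 2), X ∣ (rep c w - 1) i j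

/-! ## OF6 -/

/-- **OF6.** Elements of degree 2 are conjugates of letters.

Proof. Let `L = w.toWord` (reduced), `L = P ++ R ++ invRev P` with `P = reduceCyclically.conjugator L`,
`R = reduceCyclically L` cyclically reduced (`FreeGroup.reduceCyclically.conj_conjugator_reduceCyclically`,
`FreeGroup.reduceCyclically.isCyclicallyReduced`). So `w = mk P * mk R * (mk P)⁻¹`, and by `deg_conj` and the
hypothesis `2 = deg c w = 2 * R.length`, so `R = [y]`. -/
def S_OF6 : Prop :=
  ∀ (α : Type u) [DecidableEq α] (c : α × Bool → ℚ),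
    (∀ L : List (α × Bool), FreeGroup.IsCyclicallyReduced L → deg c (FreeGroup.mk L) = 2 * L.length) →
    ∀ w : FreeGroup α, deg c w = 2 → ∃ (u : FreeGroup α) (y : α × Bool), w = u * FreeGroup.mk [y] * u⁻¹

/-! ## OF7 -/

/-- **OF7.** The axes of two conjugates of letters meet.

Proof. Strong induction on the length of `L = v.toWord`. If `L = []`, take `a = b = 0`. If `L` starts with a
letter `y1` with `y1.1 = y.1`, so `mk [y1] = mk [y] ^ (±1) =: t`, then `v = t v'`, where `v'` has a shorter word,
`y v z v⁻¹ = t (y v' z v'⁻¹) t⁻¹` (`t` commutes with `mk [y]`) has the same degree as `y v' z v'⁻¹`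
(`deg_conj`), so `v' = y ^ a z ^ b` and `v = y ^ (a ± 1) z ^ b`. If `L` ends with a letter `z1` with
`z1.1 = z.1`, then `v = v' t`, `t = mk [z] ^ (±1)`, `v z v⁻¹ = v' z v'⁻¹`, so `v' = y ^ a z ^ b`,
`v = y ^ a z ^ (b ± 1)`. In the remaining case `L` is nonempty, does not start with `y^(±1)` and does not end with
`z^(±1)`, so the word `[y] ++ L ++ [z] ++ invRev L` is cyclically reduced of length `2 + 2 |L|`, and by the
hypothesis its degree is `4 + 4 |L| ≠ 4`, a contradiction. -/
def S_OF7 : Prop :=
  ∀ (α : Type u) [DecidableEq α] (c : α × Bool → ℚ),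
    (∀ L : List (α × Bool), FreeGroup.IsCyclicallyReduced L → deg c (FreeGroup.mk L) = 2 * L.length) →
    ∀ (y z : α × Bool), y.1 ≠ z.1 → ∀ v : FreeGroup α,
      deg c (FreeGroup.mk [y] * v * FreeGroup.mk [z] * v⁻¹) = 4 →
      ∃ a b : ℤ, v = FreeGroup.mk [y] ^ a * FreeGroup.mk [z] ^ b

/-! ## OF8 -/

/-- **OF8.** Automorphisms which map generators to conjugates of letters whose axes meet.

Proof. (1) If `ψ (of i) = h y h⁻¹` and `ψ (of j) = h' z h'⁻¹`, `i ≠ j`, with letters `y`, `z`, then
`y.1 ≠ z.1`: otherwise `mk [z] = mk [y] ^ (±1)`, so `ψ (of i * of j ^ (∓1))` is in the commutator subgroup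
(its image in the abelianisation is trivial), so `of i * of j ^ (∓1)` is in the commutator subgroup (apply
`ψ⁻¹`, the commutator subgroup is characteristic: `ψ⁻¹` induces a map of the abelianisations), but
the homomorphism `FreeGroup α →* Multiplicative ℤ` with `of i ↦ 1`, `of k ↦ 0` (`k ≠ i`) maps it to `1`.
(2) If `α` has at most one element, take `h = 1` or the conjugating element of the only generator.
Otherwise let `i ≠ j`. `hP` gives `u_i⁻¹ u_j = y_i ^ a y_j ^ b`, so `h := u_i y_i ^ a = u_j y_j ^ (-b)` satisfies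
`ψ (of i) = h y_i h⁻¹`, `ψ (of j) = h y_j h⁻¹`. For `k ≠ i, j`, `ψ (of k) = u y_k u⁻¹`, `hP` for `(i, k)` and for `(j, k)` gives
`h⁻¹ u = y_i ^ a y_k ^ b = y_j ^ a' y_k ^ b'`. The exponent of the generator `y_i.1` (homomorphism to `ℤ`) is
`± a` on the left and `0` on the right, so `a = 0` and `u = h y_k ^ b`, `ψ (of k) = h y_k h⁻¹`. -/
def S_OF8 : Prop :=
  ∀ (α : Type u) [DecidableEq α] (ψ : MulAut (FreeGroup α)),
    (∀ i, ∃ (u : FreeGroup α) (y : α × Bool), ψ (FreeGroup.of i) = u * FreeGroup.mk [y] * u⁻¹) →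
    (∀ (i j : α) (h h' : FreeGroup α) (y z : α × Bool), i ≠ j → y.1 ≠ z.1 →
      ψ (FreeGroup.of i) = h * FreeGroup.mk [y] * h⁻¹ →
      ψ (FreeGroup.of j) = h' * FreeGroup.mk [z] * h'⁻¹ →
      ∃ a b : ℤ, h⁻¹ * h' = FreeGroup.mk [y] ^ a * FreeGroup.mk [z] ^ b) →
    ∃ h : FreeGroup α, ∀ i, ∃ y : α × Bool, ψ (FreeGroup.of i) = h * FreeGroup.mk [y] * h⁻¹

/-! ## OF9 -/

/-- **OF9.** Such an automorphism has a power which is inner.

Proof. `σ = MulAut.conj h⁻¹ * ψ` maps each generator to a letter, hence each letter to a letter (`mk [(x, true)] =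
of x`, `mk [(x, false)] = (of x)⁻¹`), so it gives an injective map `p` of the finite set `α × Bool` to itself with
`σ (mk [y]) = mk [p y]` (`mk [·]` is injective), a permutation; `p ^ n = 1` for some `n > 0`
(`isOfFinOrder_of_finite`), so `σ ^ n = 1`. `ψ = conj h * σ`, and modulo the normal subgroup of the inner
automorphisms `ψ ^ n = σ ^ n = 1`: by induction `(conj h * σ) ^ m = conj (h_m) * σ ^ m` with
`h_{m+1} = h_m * (σ ^ m) h`, using `σ * conj x = conj (σ x) * σ`. -/
def S_OF9 : Prop :=
  ∀ (α : Type u) [Finite α] (ψ : MulAut (FreeGroup α)) (h : FreeGroup α),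
    (∀ i, ∃ y : α × Bool, ψ (FreeGroup.of i) = h * FreeGroup.mk [y] * h⁻¹) →
    ∃ n : ℕ, 0 < n ∧ ∃ x : FreeGroup α, ψ ^ n = MulAut.conj x

end Pool.Agent.H416.OF
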