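import Mathlib
import Pool.Agent.H416.OF.Tasks

/-!
# OF4: degrees of the traces of cyclically reduced words
-/

set_option autoImplicit false

namespace Pool.Agent.H618.OF4

open Polynomial Pool.Agent.H416.OF

universe u

/-- `v_a = (1, a)` -/
def vv (a : ℚ) : Fin 2 → ℚ := ![1, a]

/-- `w_a = (-a, 1)` -/
def ww (a : ℚ) : Fin 2 → ℚ := ![-a, 1]

theorem E_deg (s c : ℚ) (i j : Fin 2) : (E s c i j).natDegree ≤ 1 := by
  have h1 : ∀ q : ℚ, (C q * X : ℚ[X]).natDegree ≤ 1 := fun q =>
    (natDegree_C_mul_le q X).trans natDegree_X_le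
  have h0 : (1 : ℚ[X]).natDegree ≤ 1 := by
    rw [natDegree_one]
    exact Nat.zero_le 1
  have e00 : E s c 0 0 = 1 - C (s * c) * X := rfl
  have e01 : E s c 0 1 = C s * X := rfl
  have e10 : E s c 1 0 = -(C (s * c ^ 2) * X) := rfl
  have e11 : E s c 1 1 = 1 + C (s * c) * X := rfl
  have g00 : (E s c 0 0).natDegree ≤ 1 := by
    rw [e00]
    exact (natDegree_sub_le _ _).trans (max_le h0 (h1 (s * c)))
  have g01 : (E s c 0 1).natDegree ≤ 1 := by
    rw [e01]
    exact h1 s
  have g10 : (E s c 1 0).natDegree ≤ 1 := by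
    rw [e10, natDegree_neg]
    exact h1 (s * c ^ 2)
  have g11 : (E s c 1 1).natDegree ≤ 1 := by
    rw [e11]
    exact natDegree_add_le_of_degree_le h0 (h1 (s * c))
  have hj : ∀ j, (E s c 0 j).natDegree ≤ 1 ∧ (E s c 1 j).natDegree ≤ 1 :=
    Fin.forall_fin_two.2 ⟨⟨g00, g10⟩, ⟨g01, g11⟩⟩
  have hi : ∀ i, (E s c i j).natDegree ≤ 1 := Fin.forall_fin_two.2 ⟨(hj j).1, (hj j).2⟩
  exact hi i

theorem E_coeff (s c : ℚ) (i j : Fin 2) : (E s c i j).coeff 1 = s * (vv c i * ww c j) := by
  fin_cases i <;> fin_cases j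
  · show (1 - C (s * c) * X : ℚ[X]).coeff 1 = s * (1 * (-c))
    rw [coeff_sub, coeff_C_mul, coeff_X_one, coeff_one]
    norm_num
  · show (C s * X : ℚ[X]).coeff 1 = s * (1 * 1)
    rw [coeff_C_mul, coeff_X_one]
    ring
  · show (-(C (s * c ^ 2) * X) : ℚ[X]).coeff 1 = s * (c * (-c))
    rw [coeff_neg, coeff_C_mul, coeff_X_one]
    ring
  · show (1 + C (s * c) * X : ℚ[X]).coeff 1 = s * (c * 1)
    rw [coeff_add, coeff_C_mul, coeff_X_one, coeff_one]
    norm_num

/-- degrees and leading coefficients of products -/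
theorem mul_entries {A B : Matrix (Fin 2) (Fin 2) ℚ[X]} {m n : ℕ}
    (hA : ∀ i j, (A i j).natDegree ≤ m) (hB : ∀ i j, (B i j).natDegree ≤ n) (i j : Fin 2) :
    ((A * B) i j).natDegree ≤ m + n ∧
    ((A * B) i j).coeff (m + n) = (A i 0).coeff m * (B 0 j).coeff n +
      (A i 1).coeff m * (B 1 j).coeff n := by
  rw [Matrix.mul_apply, Fin.sum_univ_two]
  constructor
  · exact natDegree_add_le_of_degree_le (natDegree_mul_le_of_le (hA _ _) (hB _ _))
      (natDegree_mul_le_of_le (hA _ _) (hB _ _))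
  · rw [coeff_add, coeff_mul_add_eq_of_natDegree_le (hA _ _) (hB _ _),
      coeff_mul_add_eq_of_natDegree_le (hA _ _) (hB _ _)]

theorem sg_sq (b : Bool) : sg b * sg b = 1 := by
  cases b <;> norm_num [sg]

variable {α : Type u}

theorem Lm_facts (c : α × Bool → ℚ) (y : α × Bool) (i j : Fin 2) :
    (Lm c y i j).natDegree ≤ 2 ∧ (Lm c y i j).coeff 2 =
      (c (y.1, !y.2) - c y) * (vv (c y) i * ww (c (y.1, !y.2)) j) := by
  obtain ⟨h1, h2⟩ := mul_entries (E_deg (sg y.2) (c y)) (E_deg (sg y.2) (c (y.1, !y.2))) i j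
  refine ⟨h1, ?_⟩
  have h3 : (Lm c y i j).coeff 2 = ((E (sg y.2) (c y) * E (sg y.2) (c (y.1, !y.2))) i j).coeff (1 + 1) :=
    rfl
  rw [h3, h2]
  simp only [E_coeff]
  have h4 := sg_sq y.2
  have e0 : ww (c y) 0 = -c y := rfl
  have e1 : ww (c y) 1 = 1 := rfl
  have e2 : vv (c (y.1, !y.2)) 0 = 1 := rfl
  have e3 : vv (c (y.1, !y.2)) 1 = c (y.1, !y.2) := rfl
  rw [e0, e1, e2, e3]
  linear_combination (vv (c y) i * ww (c (y.1, !y.2)) j * (c (y.1, !y.2) - c y)) * h4

/-- the last letter -/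
def lst {β : Type u} : β → List β → β
  | y, [] => y
  | _, z :: L => lst z L

theorem lst_mem {β : Type u} (L : List β) : ∀ y : β, lst y L ∈ (y :: L).getLast? := by
  induction L with
  | nil =>
    intro y
    simp [lst]
  | cons z L ih =>
    intro y
    rw [List.getLast?_cons_cons]
    exact ih z

theorem word (c : α × Bool → ℚ) (hc : Function.Injective c) (L : List (α × Bool)) :
    ∀ y : α × Bool, FreeGroup.IsReduced (y :: L) →
    ∃ κ : ℚ, κ ≠ 0 ∧ ∀ i j, ((((y :: L).map (Lm c)).prod) i j).natDegree ≤ 2 * (L.length + 1) ∧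
      ((((y :: L).map (Lm c)).prod) i j).coeff (2 * (L.length + 1)) =
        κ * (vv (c y) i * ww (c ((lst y L).1, !(lst y L).2)) j) := by
  induction L with
  | nil =>
    intro y _
    refine ⟨c (y.1, !y.2) - c y, ?_, fun i j => ?_⟩
    · intro h
      have h1 := hc (sub_eq_zero.1 h)
      have h2 := congrArg Prod.snd h1
      simp at h2
    · simp only [List.map_cons, List.map_nil, List.prod_cons, List.prod_nil, mul_one,
        List.length_nil, zero_add]
      exact Lm_facts c y i j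
  | cons z L ih =>
    intro y hred
    rw [FreeGroup.IsReduced, List.isChain_cons_cons] at hred
    obtain ⟨κ, hκ, h⟩ := ih z hred.2
    refine ⟨(c (y.1, !y.2) - c y) * (c z - c (y.1, !y.2)) * κ, ?_, fun i j => ?_⟩
    · refine mul_ne_zero (mul_ne_zero ?_ ?_) hκ
      · intro h
        have h1 := hc (sub_eq_zero.1 h)
        have h2 := congrArg Prod.snd h1
        simp at h2
      · intro h
        have h1 := hc (sub_eq_zero.1 h)
        have h2 := congrArg Prod.fst h1
        have h3 := congrArg Prod.snd h1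
        simp only at h2 h3
        have h4 := hred.1 h2.symm
        rw [h3] at h4
        cases hy : y.2 <;> simp [hy] at h4
    · have h1 := mul_entries (fun i j => (Lm_facts c y i j).1) (fun i j => (h i j).1) i j
      have e1 : 2 * ((z :: L).length + 1) = 2 + 2 * (L.length + 1) := by
        rw [List.length_cons]
        ring
      have e2 : (((y :: z :: L).map (Lm c)).prod) = Lm c y * (((z :: L).map (Lm c)).prod) := by
        rw [List.map_cons, List.prod_cons]
      rw [e1, e2]
      refine ⟨h1.1, ?_⟩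
      rw [h1.2, (Lm_facts c y i 0).2, (Lm_facts c y i 1).2, (h 0 j).2, (h 1 j).2]
      have e3 : ww (c (y.1, !y.2)) 0 = -c (y.1, !y.2) := rfl
      have e4 : ww (c (y.1, !y.2)) 1 = 1 := rfl
      have e5 : vv (c z) 0 = 1 := rfl
      have e6 : vv (c z) 1 = c z := rfl
      have e7 : lst y (z :: L) = lst z L := rfl
      rw [e3, e4, e5, e6, e7]
      ring

end Pool.Agent.H618.OF4

open Polynomial Pool.Agent.H416.OF Pool.Agent.H618.OF4 in
/-- **OF4.** -/
theorem Pool.Agent.H618.OF4.OF4_holds : S_OF4 := by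
  intro α c hc L hL
  unfold deg
  rw [rep_mk]
  cases L with
  | nil =>
    simp only [List.map_nil, List.prod_nil, List.length_nil, mul_zero]
    rw [Matrix.trace_one]
    exact natDegree_natCast _
  | cons y L =>
    obtain ⟨κ, hκ, h⟩ := word c hc L y hL.1
    have e1 : ((y :: L).map (Lm c)).prod.trace =
        (((y :: L).map (Lm c)).prod) 0 0 + (((y :: L).map (Lm c)).prod) 1 1 :=
      Matrix.trace_fin_two _
    rw [e1, List.length_cons]
    refine natDegree_eq_of_le_of_coeff_ne_zero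
      (natDegree_add_le_of_degree_le (h 0 0).1 (h 1 1).1) ?_
    rw [coeff_add, (h 0 0).2, (h 1 1).2]
    have e2 : vv (c y) 0 = 1 := rfl
    have e3 : vv (c y) 1 = c y := rfl
    have e4 : ww (c ((lst y L).1, !(lst y L).2)) 0 = -c ((lst y L).1, !(lst y L).2) := rfl
    have e5 : ww (c ((lst y L).1, !(lst y L).2)) 1 = 1 := rfl
    rw [e2, e3, e4, e5]
    have e6 : κ * (1 * -c ((lst y L).1, !(lst y L).2)) + κ * (c y * 1) =
        κ * (c y - c ((lst y L).1, !(lst y L).2)) := by ring
    rw [e6]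
    refine mul_ne_zero hκ ?_
    intro h0
    have h1 := hc (sub_eq_zero.1 h0)
    have h2 := congrArg Prod.fst h1
    have h3 := congrArg Prod.snd h1
    simp only at h2 h3
    have h4 := hL.2 (lst y L) (lst_mem L y) y (by simp) h2.symm
    rw [h3] at h4
    cases hy : (lst y L).2 <;> simp [hy] at h4
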