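import Pool.Agent.H416.OF.Tasks

set_option autoImplicit false

namespace Pool.Agent.H397.OF

open Polynomial Pool.Agent.H416.OF

universe u

/-- reduction modulo `X` of matrices -/
noncomputable def red : Matrix (Fin 2) (Fin 2) ℚ[X] →+* Matrix (Fin 2) (Fin 2) ℚ :=
  (Polynomial.evalRingHom (0 : ℚ)).mapMatrix

theorem red_E (s c : ℚ) : red (E s c) = 1 := by
  refine Matrix.ext fun i j => ?_
  unfold red E
  rw [RingHom.mapMatrix_apply, Matrix.map_apply]
  fin_cases i <;> fin_cases j <;> simp

theorem red_Lm {α : Type u} (c : α × Bool → ℚ) (y : α × Bool) : red (Lm c y) = 1 := by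
  unfold Lm
  rw [map_mul, red_E, red_E, one_mul]

theorem red_rep {α : Type u} (c : α × Bool → ℚ) (w : FreeGroup α) : red (rep c w) = 1 := by
  obtain ⟨L, rfl⟩ := Quot.exists_rep w
  have h : (Quot.mk _ L : FreeGroup α) = FreeGroup.mk L := rfl
  rw [h, rep_mk, map_list_prod, List.map_map]
  have h2 : L.map (red ∘ Lm c) = L.map (fun _ => (1 : Matrix (Fin 2) (Fin 2) ℚ)) :=
    List.map_congr_left fun y _ => red_Lm c y
  rw [h2]
  simp

theorem OF5_holds : S_OF5.{u} := by
  intro α c w i j
  have h := red_rep c w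
  have h2 : red (rep c w - 1) = 0 := by
    rw [map_sub, h, map_one, sub_self]
  have h3 : (red (rep c w - 1)) i j = 0 := by
    rw [h2]
    rfl
  unfold red at h3
  rw [RingHom.mapMatrix_apply, Matrix.map_apply, Polynomial.coe_evalRingHom] at h3
  rw [Polynomial.X_dvd_iff, Polynomial.coeff_zero_eq_eval_zero]
  exact h3

end Pool.Agent.H397.OF
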