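import Pool.Agent.H416.OF.Tasks

set_option autoImplicit false

/-! # OF6 (helper350, for helper416) -/

universe u

namespace Pool.Agent.H350.OF6

open Pool.Agent.H416.OF

theorem OF6_holds : S_OF6.{u} := by
  intro α _ c hc w hw
  set L := w.toWord with hL
  have h0 : FreeGroup.reduceCyclically.conjugator L ++ FreeGroup.reduceCyclically L ++
      FreeGroup.invRev (FreeGroup.reduceCyclically.conjugator L) = L :=
    FreeGroup.reduceCyclically.conj_conjugator_reduceCyclically L
  set P := FreeGroup.reduceCyclically.conjugator L with hP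
  set R := FreeGroup.reduceCyclically L with hR
  have h1 : w = FreeGroup.mk P * FreeGroup.mk R * (FreeGroup.mk P)⁻¹ := by
    rw [FreeGroup.inv_mk, FreeGroup.mul_mk, FreeGroup.mul_mk, h0, hL, FreeGroup.mk_toWord]
  have h2 : FreeGroup.IsCyclicallyReduced R :=
    FreeGroup.reduceCyclically.isCyclicallyReduced FreeGroup.isReduced_toWord
  have h3 : deg c w = 2 * R.length := by
    rw [h1, deg_conj, hc R h2]
  have h4 : R.length = 1 := by omega
  obtain ⟨y, hy⟩ := List.length_eq_one_iff.1 h4
  exact ⟨FreeGroup.mk P, y, by rw [h1, hy]⟩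

end Pool.Agent.H350.OF6

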