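import Pool.Agent.H416.OF.Tasks

set_option autoImplicit false

/-!
# OF7 (helper322 for helper416): the axes of two conjugates of letters meet
-/

namespace Pool.Agent.H322.OF7

open Pool.Agent.H416.OF FreeGroup

universe u

variable {α : Type u}

theorem reduced_invRev {L : List (α × Bool)} (h : FreeGroup.IsReduced L) : FreeGroup.IsReduced (invRev L) := by
  unfold invRev FreeGroup.IsReduced at *
  rw [List.isChain_reverse, List.isChain_map]
  refine h.imp fun a b hab h1 => ?_
  rw [hab h1.symm]

theorem cyc (y z : α × Bool) (L : List (α × Bool)) (hL : FreeGroup.IsReduced L) (hne : L ≠ [])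
    (h1 : ∀ x ∈ L.head?, x.1 ≠ y.1) (h2 : ∀ x ∈ L.getLast?, x.1 ≠ z.1) :
    IsCyclicallyReduced (y :: (L ++ (z :: invRev L))) := by
  have hne' : invRev L ≠ [] := by
    intro h
    apply hne
    have := congrArg List.length h
    rw [invRev_length] at this
    exact List.length_eq_zero_iff.1 this
  have e1 : (invRev L).head? = L.getLast?.map (fun g : α × Bool => (g.1, !g.2)) := by
    unfold invRev
    rw [List.head?_reverse, List.getLast?_map]
  have e2 : (invRev L).getLast? = L.head?.map (fun g : α × Bool => (g.1, !g.2)) := by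
    unfold invRev
    rw [List.getLast?_reverse, List.head?_map]
  constructor
  · unfold FreeGroup.IsReduced
    rw [List.isChain_cons, List.isChain_append, List.isChain_cons]
    refine ⟨?_, hL, ⟨?_, reduced_invRev hL⟩, ?_⟩
    · intro x hx h
      rw [List.head?_append_of_ne_nil _ hne] at hx
      exact absurd h.symm (h1 x hx)
    · intro x hx h
      rw [e1] at hx
      obtain ⟨g, hg, rfl⟩ := Option.mem_map.1 hx
      exact absurd h.symm (h2 g hg)
    · intro x hx w hw h
      rw [List.head?_cons] at hw
      obtain rfl := Option.some.inj hw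
      exact absurd h (h2 x hx)
  · intro a ha b hb h
    rw [List.head?_cons] at hb
    obtain rfl := Option.some.inj hb
    have e3 : (y :: (L ++ (z :: invRev L))).getLast? = (invRev L).getLast? := by
      rw [List.getLast?_cons_of_ne_nil (by simp), List.getLast?_append_of_ne_nil _ (by simp),
        List.getLast?_cons_of_ne_nil hne']
    rw [e3, e2] at ha
    obtain ⟨g, hg, rfl⟩ := Option.mem_map.1 ha
    exact absurd h (h1 g hg)

theorem letter_zpow {y y1 : α × Bool} (h : y1.1 = y.1) :
    ∃ ε : ℤ, (FreeGroup.mk [y1] : FreeGroup α) = FreeGroup.mk [y] ^ ε := by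
  obtain ⟨x, b⟩ := y
  obtain ⟨x1, b1⟩ := y1
  simp only at h
  subst h
  by_cases hb : b1 = b
  · subst hb
    exact ⟨1, (zpow_one _).symm⟩
  · have hb' : b1 = !b := by
      cases b <;> cases b1 <;> simp_all
    subst hb'
    refine ⟨-1, ?_⟩
    rw [zpow_neg_one, inv_mk]
    simp [invRev]

theorem OF7_holds : S_OF7.{u} := by
  intro α _ c hdeg y z hyz v hv
  have key : ∀ (n : ℕ) (L : List (α × Bool)), L.length = n → FreeGroup.IsReduced L →
      deg c (FreeGroup.mk [y] * FreeGroup.mk L * FreeGroup.mk [z] * (FreeGroup.mk L)⁻¹) = 4 →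
      ∃ a b : ℤ, (FreeGroup.mk L : FreeGroup α) = FreeGroup.mk [y] ^ a * FreeGroup.mk [z] ^ b := by
    intro n
    induction n using Nat.strong_induction_on with
    | _ n ih =>
      intro L hn hL hd
      by_cases hne : L = []
      · refine ⟨0, 0, ?_⟩
        rw [hne]
        simp [FreeGroup.one_eq_mk]
      by_cases hs : ∃ x ∈ L.head?, x.1 = y.1
      · obtain ⟨y1, hy1, hy⟩ := hs
        obtain ⟨L', rfl⟩ : ∃ L', L = y1 :: L' := by
          cases L with
          | nil => exact absurd rfl hne
          | cons w L' =>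
            rw [List.head?_cons] at hy1
            obtain rfl := Option.some.inj hy1
            exact ⟨L', rfl⟩
        obtain ⟨ε, hε⟩ := letter_zpow hy
        have e0 : (FreeGroup.mk (y1 :: L') : FreeGroup α) = FreeGroup.mk [y1] * FreeGroup.mk L' := by
          rw [FreeGroup.mul_mk]; rfl
        rw [e0, hε] at hd ⊢
        have e1 : (FreeGroup.mk [y] * (FreeGroup.mk [y] ^ ε * FreeGroup.mk L') * FreeGroup.mk [z] *
            (FreeGroup.mk [y] ^ ε * FreeGroup.mk L')⁻¹ : FreeGroup α) =
            FreeGroup.mk [y] ^ ε * (FreeGroup.mk [y] * FreeGroup.mk L' * FreeGroup.mk [z] *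
              (FreeGroup.mk L')⁻¹) * (FreeGroup.mk [y] ^ ε)⁻¹ := by
          have : (FreeGroup.mk [y] * FreeGroup.mk [y] ^ ε : FreeGroup α) =
              FreeGroup.mk [y] ^ ε * FreeGroup.mk [y] := (Commute.self_zpow _ _).eq
          rw [← mul_assoc (FreeGroup.mk [y]), this]
          simp only [mul_inv_rev, mul_assoc]
        rw [e1, deg_conj] at hd
        obtain ⟨a, b, hab⟩ := ih L'.length (by rw [← hn]; simp) L' rfl
          (List.IsChain.right_of_append (l₁ := [y1]) hL) hd
        refine ⟨ε + a, b, ?_⟩
        rw [hab, zpow_add, mul_assoc]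
      by_cases he : ∃ x ∈ L.getLast?, x.1 = z.1
      · obtain ⟨z1, hz1, hz⟩ := he
        obtain ⟨L', rfl⟩ : ∃ L', L = L' ++ [z1] := by
          rcases List.eq_nil_or_concat L with h | ⟨L', w, h⟩
          · exact absurd h hne
          · rw [List.concat_eq_append] at h
            subst h
            rw [List.getLast?_concat] at hz1
            obtain rfl := Option.some.inj hz1
            exact ⟨L', rfl⟩
        obtain ⟨ε, hε⟩ := letter_zpow hz
        have e0 : (FreeGroup.mk (L' ++ [z1]) : FreeGroup α) =
            FreeGroup.mk L' * FreeGroup.mk [z1] := by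
          rw [FreeGroup.mul_mk]
        rw [e0, hε] at hd ⊢
        have e1 : (FreeGroup.mk [y] * (FreeGroup.mk L' * FreeGroup.mk [z] ^ ε) * FreeGroup.mk [z] *
            (FreeGroup.mk L' * FreeGroup.mk [z] ^ ε)⁻¹ : FreeGroup α) =
            FreeGroup.mk [y] * FreeGroup.mk L' * FreeGroup.mk [z] * (FreeGroup.mk L')⁻¹ := by
          have : (FreeGroup.mk [z] ^ ε * FreeGroup.mk [z] * (FreeGroup.mk [z] ^ ε)⁻¹ :
              FreeGroup α) = FreeGroup.mk [z] := by
            rw [← (Commute.self_zpow (FreeGroup.mk [z]) ε).eq, mul_inv_cancel_right]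
          calc (FreeGroup.mk [y] * (FreeGroup.mk L' * FreeGroup.mk [z] ^ ε) * FreeGroup.mk [z] *
            (FreeGroup.mk L' * FreeGroup.mk [z] ^ ε)⁻¹ : FreeGroup α) =
            FreeGroup.mk [y] * FreeGroup.mk L' * (FreeGroup.mk [z] ^ ε * FreeGroup.mk [z] *
              (FreeGroup.mk [z] ^ ε)⁻¹) * (FreeGroup.mk L')⁻¹ := by
                simp only [mul_inv_rev, mul_assoc]
            _ = _ := by rw [this]
        rw [e1] at hd
        obtain ⟨a, b, hab⟩ := ih L'.length (by rw [← hn]; simp) L' rfl
          (List.IsChain.left_of_append (l₂ := [z1]) hL) hd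
        refine ⟨a, b + ε, ?_⟩
        rw [hab, zpow_add, mul_assoc]
      · exfalso
        have hcyc := cyc y z L hL hne (fun x hx h => hs ⟨x, hx, h⟩) (fun x hx h => he ⟨x, hx, h⟩)
        have hd2 := hdeg _ hcyc
        have e1 : (FreeGroup.mk [y] * FreeGroup.mk L * FreeGroup.mk [z] * (FreeGroup.mk L)⁻¹ :
            FreeGroup α) = FreeGroup.mk (y :: (L ++ (z :: invRev L))) := by
          rw [inv_mk, FreeGroup.mul_mk, FreeGroup.mul_mk, FreeGroup.mul_mk]
          congr 1
          simp
        rw [e1, hd2] at hd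
        simp only [List.length_cons, List.length_append, invRev_length] at hd
        have : L.length = 0 := by omega
        exact hne (List.length_eq_zero_iff.1 this)
  have h := key _ v.toWord rfl FreeGroup.isReduced_toWord (by rw [FreeGroup.mk_toWord]; exact hv)
  rwa [FreeGroup.mk_toWord] at h

end Pool.Agent.H322.OF7
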