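import Pool.Agent.H416.OF.Tasks

/-!
# Project OF (helper416), OF9: signed permutations have inner powers
-/

set_option autoImplicit false

namespace Pool.Agent.H241.OF9

open Pool.Agent.H416.OF

universe u

/-- Automorphisms which map generators to letters form a finite set. -/
theorem fin_letters (α : Type u) [Finite α] :
    {τ : MulAut (FreeGroup α) | ∀ i, ∃ y : α × Bool,
      τ (FreeGroup.of i) = FreeGroup.mk [y]}.Finite := by
  classical
  have hfin : Finite (α → α × Bool) := inferInstance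
  let F : {τ : MulAut (FreeGroup α) | ∀ i, ∃ y : α × Bool,
      τ (FreeGroup.of i) = FreeGroup.mk [y]} → (α → α × Bool) := fun τ i => (τ.2 i).choose
  have hF : ∀ (τ : {τ : MulAut (FreeGroup α) | ∀ i, ∃ y : α × Bool,
      τ (FreeGroup.of i) = FreeGroup.mk [y]}) (i : α),
      τ.1 (FreeGroup.of i) = FreeGroup.mk [F τ i] := fun τ i => (τ.2 i).choose_spec
  have hinj : Function.Injective F := by
    intro τ τ' h
    apply Subtype.ext
    apply MulEquiv.toMonoidHom_injective
    apply FreeGroup.ext_hom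
    intro i
    show τ.1 (FreeGroup.of i) = τ'.1 (FreeGroup.of i)
    rw [hF, hF, h]
  have h1 : Finite {τ : MulAut (FreeGroup α) | ∀ i, ∃ y : α × Bool,
      τ (FreeGroup.of i) = FreeGroup.mk [y]} := Finite.of_injective F hinj
  exact Set.toFinite _

theorem OF9_holds : S_OF9.{u} := by
  intro α _ ψ h hψ
  classical
  obtain ⟨σ, hσ⟩ : ∃ σ : MulAut (FreeGroup α), σ = (MulAut.conj h)⁻¹ * ψ := ⟨_, rfl⟩
  have hψσ : ψ = MulAut.conj h * σ := by rw [hσ, mul_inv_cancel_left]
  have hσi : ∀ i, ∃ y : α × Bool, σ (FreeGroup.of i) = FreeGroup.mk [y] := by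
    intro i
    obtain ⟨y, hy⟩ := hψ i
    refine ⟨y, ?_⟩
    rw [hσ, MulAut.mul_apply, hy, MulAut.conj_inv_apply]
    group
  have hlet : ∀ y : α × Bool, ∃ z : α × Bool, σ (FreeGroup.mk [y]) = FreeGroup.mk [z] := by
    rintro ⟨x, b⟩
    obtain ⟨y, hy⟩ := hσi x
    cases b with
    | true => exact ⟨y, hy⟩
    | false =>
      refine ⟨(y.1, !y.2), ?_⟩
      have e : FreeGroup.mk [(x, false)] = (FreeGroup.of x)⁻¹ := rfl
      rw [e, map_inv, hy, FreeGroup.inv_mk]
      rfl
  have hpow : ∀ (m : ℕ) (i : α), ∃ y : α × Bool, (σ ^ m) (FreeGroup.of i) = FreeGroup.mk [y] := by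
    intro m
    induction m with
    | zero => intro i; exact ⟨(i, true), rfl⟩
    | succ m ih =>
      intro i
      obtain ⟨y, hy⟩ := ih i
      obtain ⟨z, hz⟩ := hlet y
      exact ⟨z, by rw [pow_succ', MulAut.mul_apply, hy, hz]⟩
  obtain ⟨a, b, hab, he⟩ := Set.Finite.exists_lt_map_eq_of_forall_mem
    (t := {τ : MulAut (FreeGroup α) | ∀ i, ∃ y : α × Bool, τ (FreeGroup.of i) = FreeGroup.mk [y]})
    (f := fun m : ℕ => σ ^ m) (fun m => hpow m) (fin_letters α)
  have hone : σ ^ (b - a) = 1 := by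
    have h1 : σ ^ a * σ ^ (b - a) = σ ^ a * 1 := by
      rw [← pow_add, mul_one, Nat.add_sub_cancel' hab.le]
      exact he.symm
    exact mul_left_cancel h1
  have hcomm : ∀ x : FreeGroup α, σ * MulAut.conj x = MulAut.conj (σ x) * σ := by
    intro x
    ext g
    simp only [MulAut.mul_apply, MulAut.conj_apply, map_mul, map_inv]
  have hind : ∀ m : ℕ, ∃ x : FreeGroup α, ψ ^ m = MulAut.conj x * σ ^ m := by
    intro m
    induction m with
    | zero => exact ⟨1, by rw [pow_zero, pow_zero, map_one, one_mul]⟩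
    | succ m ih =>
      obtain ⟨x, hx⟩ := ih
      refine ⟨h * σ x, ?_⟩
      rw [pow_succ', hx, pow_succ' σ, hψσ, map_mul]
      calc MulAut.conj h * σ * (MulAut.conj x * σ ^ m)
          = MulAut.conj h * (σ * MulAut.conj x) * σ ^ m := by simp only [mul_assoc]
        _ = MulAut.conj h * MulAut.conj (σ x) * (σ * σ ^ m) := by
            rw [hcomm]; simp only [mul_assoc]
  obtain ⟨x, hx⟩ := hind (b - a)
  refine ⟨b - a, Nat.sub_pos_of_lt hab, x, ?_⟩
  rw [hx, hone, mul_one]

end Pool.Agent.H241.OF9
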