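import Pool.Agent.H416.OF.Out
import Pool.Agent.H416.OF.P1
import Pool.Agent.H416.OF.P2
import Pool.Agent.H416.OF.P3
import Pool.Agent.H416.OF.P4
import Pool.Agent.H416.OF.P5
import Pool.Agent.H416.OF.P6
import Pool.Agent.H416.OF.P7
import Pool.Agent.H356.OF8
import Pool.Agent.H416.OF.P9

set_option autoImplicit false

/-!
# Groups of outer automorphisms of free groups of finite rank
-/

namespace Pool.Agent.H416.LG

open Pool.Agent.H416.OF (Out)

universe w y z

/-- Groups of outer automorphisms of free groups of finite rank. -/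
theorem OnLinear.of_out {G : Type w} [Group G] {α : Type y} [Finite α]
    (ψ : G →* Out (FreeGroup α)) {g : G} (hg : ∀ n : ℕ, 0 < n → ψ g ^ n ≠ 1) :
    OnLinear.{w, z} G g :=
  Pool.Agent.H416.OF.onLinear_of_out Pool.Agent.H922.OF1.OF1_holds Pool.Agent.H725.OF2.OF2_holds
    Pool.Agent.H928.OF.OF3_holds Pool.Agent.H618.OF4.OF4_holds
    Pool.Agent.H397.OF.OF5_holds Pool.Agent.H350.OF6.OF6_holds Pool.Agent.H322.OF7.OF7_holds
    Pool.Agent.H356.OF8.OF8_holds Pool.Agent.H241.OF9.OF9_holds ψ hg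

end Pool.Agent.H416.LG
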