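import Pool.Agent.H416.LG.P7
import Pool.Agent.H416.OF.Tasks

set_option autoImplicit false

/-!
# Project OF (helper416): outer automorphisms of free groups have infinite order in a linear
# representation (part 2: the representations)

`hat φ` is the algebra automorphism of `ℚ[Γ]` induced by the automorphism `φ` of `Γ`, `augI Γ` the
augmentation ideal. The file `Pool/Agent/H416/LG/P7.lean` proves the analogous facts for the quotients
`ℚ[Γ] / I ^ c`; adapt it.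
-/

namespace Pool.Agent.H416.OF

open Polynomial
open Pool.Agent.H416.LG (augI)
open Pool.Agent.H263.LG7 (hat)

universe u

/-- The span of the commutators. -/
noncomputable def Cm (Γ : Type u) [Group Γ] : Submodule ℚ (MonoidAlgebra ℚ Γ) :=
  Submodule.span ℚ {z | ∃ a b : MonoidAlgebra ℚ Γ, z = a * b - b * a}

/-- `I ^ c` plus the span of the commutators. -/
noncomputable def Wc (Γ : Type u) [Group Γ] (c : ℕ) : Submodule ℚ (MonoidAlgebra ℚ Γ) :=
  (augI Γ ^ c).restrictScalars ℚ ⊔ Cm Γ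

/-! ## OF1 -/

/-- **OF1.** The representations of `Out(Γ)` on `ℚ[Γ] / (I ^ c + [ℚ[Γ], ℚ[Γ]])`.

Proof. As `from_rep` in `P7.lean`, with `Wc Γ c` in place of `PP Γ c`: `hat φ` is a ring homomorphism, so it
preserves the span of the commutators, and it preserves `augI Γ ^ c` (`hat_pow`), hence `Wc Γ c`; the quotient
by `Wc Γ c` is finite dimensional, as a quotient of the one by `PP Γ c` (`fin_quot`; use
`Submodule.mapQ` or `Module.Finite.of_surjective`). In the representation of `MulAut Γ` on this quotient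
`MulAut.conj x` acts as the identity: it suffices to look at the elements `of y`, and
`of (x y x⁻¹) - of y = (of x * of y) * of x⁻¹ - of x⁻¹ * (of x * of y)`. Choose a basis to get matrices. -/
def S_OF1 : Prop :=
  ∀ (Γ : Type u) [Group Γ], Group.FG Γ → ∀ φ : MulAut Γ,
    (∀ (m : ℕ) (ρ : MulAut Γ →* GL (Fin m) ℚ), (∀ x : Γ, ρ (MulAut.conj x) = 1) →
      ∃ n : ℕ, 0 < n ∧ ρ φ ^ n = 1) →
    ∀ c : ℕ, ∃ n : ℕ, 0 < n ∧ ∀ a, hat (φ ^ n) a - a ∈ Wc Γ c

/-! ## OF2 -/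

/-- **OF2.** The unipotent part.

Proof. As in `P7.lean` (`unip`, `LG7_holds`). `Wc Γ 2 = I ^ 2`, because
`a b - b a = (a - ε a) (b - ε b) - (b - ε b) (a - ε a)` (`ε` the augmentation, `eps`) is in `I ^ 2`. Take `m` for
`c = 2` and `ψ = φ ^ m`; so `hat ψ a - a ∈ I ^ 2` for all `a`, and by `step2` `hat ψ a - a ∈ I ^ (k + 1)` for
`a ∈ I ^ k`. Fix `c` and let `n > 0` with `hat (φ ^ n) a - a ∈ Wc Γ c` for all `a`; then also
`hat (ψ ^ n) a - a ∈ Wc Γ c` (`ψ ^ n = (φ ^ n) ^ m`, and `Wc Γ c` is preserved by `hat`). Show by induction on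
`k ≤ c` that `hat ψ a - a ∈ Wc Γ k` for all `a`: let `N = hat ψ a - a = N1 + N2`, `N1 ∈ I ^ k`, `N2` in the span of
the commutators. `hat (ψ ^ n) a - a = ∑_{i < n} hat (ψ ^ i) N` (`sum_iter`),
`hat (ψ ^ i) N - N = (hat (ψ ^ i) N1 - N1) + (hat (ψ ^ i) N2 - N2) ∈ I ^ (k + 1) + Cm` (`iter_mem`, and `hat`
preserves `Cm`), so `n • N ∈ Wc Γ (k + 1)`, `N ∈ Wc Γ (k + 1)`. -/
def S_OF2 : Prop :=
  ∀ (Γ : Type u) [Group Γ] (φ : MulAut Γ),
    (∀ c : ℕ, ∃ n : ℕ, 0 < n ∧ ∀ a, hat (φ ^ n) a - a ∈ Wc Γ c) →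
    ∃ m : ℕ, 0 < m ∧ ∀ (c : ℕ) (a), hat (φ ^ m) a - a ∈ Wc Γ c

/-! ## OF3 -/

/-- **OF3.** Traces.

Proof. Extend `ρ` to an algebra homomorphism `ρ' = MonoidAlgebra.lift` from `ℚ[Γ]` to the matrices over
`ℚ[X]`. `L a = trace (ρ' a)` vanishes on the commutators (`Matrix.trace_mul_comm`). For `a ∈ I` the entries
of `ρ' a` are divisible by `X`: compose with `X ↦ 0` (`Polynomial.evalRingHom 0`, entrywise), the
composition and `a ↦ ε(a) 1` agree on the elements of `Γ` (algebra homomorphisms, `algHom_eq`). So for `a ∈ I ^ c`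
the entries of `ρ' a` are divisible by `X ^ c` (induction, `Submodule.mul_induction_on'`), hence
`X ^ c ∣ L a` for `a ∈ Wc Γ c`. With `a = hat ψ (of w) - of w = of (ψ w) - of w` this gives
`X ^ c ∣ trace (ρ (ψ w)) - trace (ρ w)` for all `c`, so the difference is `0`
(`Polynomial.eq_zero_of_dvd_of_natDegree_lt` or `Polynomial.X_pow_dvd_iff`). -/
def S_OF3 : Prop :=
  ∀ (Γ : Type u) [Group Γ] (ψ : MulAut Γ), (∀ (c : ℕ) (a), hat ψ a - a ∈ Wc Γ c) →
    ∀ ρ : Γ →* Matrix (Fin 2) (Fin 2) ℚ[X], (∀ (x : Γ) (i j : Fin 2), X ∣ (ρ x - 1) i j) →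
    ∀ w : Γ, (ρ (ψ w)).trace = (ρ w).trace

end Pool.Agent.H416.OF
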