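import Pool.Agent.H416.OF.Defs
import Pool.Agent.H416.OF.Tasks1
import Pool.Agent.H416.LG.Cl2

set_option autoImplicit false

/-!
# Outer automorphisms of free groups of infinite order have infinite order in a linear representation
-/

namespace Pool.Agent.H416.OF

open Polynomial
open Pool.Agent.H416.LG (augI OnLinear)
open Pool.Agent.H263.LG7 (hat)

universe u v w x y z

theorem fg_free (α : Type u) [Finite α] : Group.FG (FreeGroup α) := by
  haveI := Fintype.ofFinite α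
  classical
  exact ⟨⟨Finset.univ.image FreeGroup.of, by
    rw [Finset.coe_image, Finset.coe_univ, Set.image_univ]
    exact FreeGroup.closure_range_of α⟩⟩

theorem exists_rep (h1 : S_OF1.{u}) (h2 : S_OF2.{u}) (h3 : S_OF3.{u}) (h4 : S_OF4.{u})
    (h5 : S_OF5.{u}) (h6 : S_OF6.{u}) (h7 : S_OF7.{u}) (h8 : S_OF8.{u}) (h9 : S_OF9.{u})
    (α : Type u) [Finite α] (φ : MulAut (FreeGroup α))
    (hφ : ∀ n : ℕ, 0 < n → ∀ x, φ ^ n ≠ MulAut.conj x) :
    ∃ (m : ℕ) (ρ : MulAut (FreeGroup α) →* GL (Fin m) ℚ), (∀ x, ρ (MulAut.conj x) = 1) ∧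
      ∀ n : ℕ, 0 < n → ρ φ ^ n ≠ 1 := by
  classical
  by_contra hcon
  push Not at hcon
  obtain ⟨m, hm, hW⟩ := h2 (FreeGroup α) φ (h1 (FreeGroup α) (fg_free α) φ fun m ρ hρ => hcon m ρ hρ)
  obtain ⟨N, ⟨e⟩⟩ := Finite.exists_equiv_fin (α × Bool)
  let c : α × Bool → ℚ := fun y => ((e y : ℕ) : ℚ)
  have hc : Function.Injective c := fun a b hab =>
    e.injective (Fin.ext (Nat.cast_injective (R := ℚ) hab))
  have hlen := h4 α c hc
  have hdeg : ∀ w, deg c ((φ ^ m) w) = deg c w := by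
    intro w
    unfold deg
    rw [h3 (FreeGroup α) (φ ^ m) hW (rep c) (h5 α c) w]
  have hof : ∀ i : α, FreeGroup.of i = FreeGroup.mk [(i, true)] := fun i => rfl
  have hQ : ∀ i, ∃ (u : FreeGroup α) (y : α × Bool),
      (φ ^ m) (FreeGroup.of i) = u * FreeGroup.mk [y] * u⁻¹ := by
    intro i
    apply h6 α c hlen
    rw [hdeg, hof, hlen _ FreeGroup.IsCyclicallyReduced.singleton]
    rfl
  have hP : ∀ (i j : α) (h h' : FreeGroup α) (y z : α × Bool), i ≠ j → y.1 ≠ z.1 →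
      (φ ^ m) (FreeGroup.of i) = h * FreeGroup.mk [y] * h⁻¹ →
      (φ ^ m) (FreeGroup.of j) = h' * FreeGroup.mk [z] * h'⁻¹ →
      ∃ a b : ℤ, h⁻¹ * h' = FreeGroup.mk [y] ^ a * FreeGroup.mk [z] ^ b := by
    intro i j h h' y z hij hyz hi hj
    apply h7 α c hlen y z hyz
    have e1 : deg c (FreeGroup.mk [y] * (h⁻¹ * h') * FreeGroup.mk [z] * (h⁻¹ * h')⁻¹) =
        deg c ((φ ^ m) (FreeGroup.of i * FreeGroup.of j)) := by
      rw [map_mul, hi, hj, ← deg_conj c h]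
      congr 1
      group
    have e2 : deg c (FreeGroup.of i * FreeGroup.of j) = 4 := by
      have e3 : FreeGroup.of i * FreeGroup.of j = FreeGroup.mk [(i, true), (j, true)] := by
        rw [hof, hof, FreeGroup.mul_mk]
        rfl
      rw [e3, hlen]
      · rfl
      · refine ⟨?_, ?_⟩
        · simp [FreeGroup.IsReduced]
        · simp
    rw [e1, hdeg, e2]
  obtain ⟨h, hh⟩ := h8 α (φ ^ m) hQ hP
  obtain ⟨n, hn, x, hx⟩ := h9 α (φ ^ m) h hh
  rw [← pow_mul] at hx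
  exact hφ (m * n) (Nat.mul_pos hm hn) x hx

/-- Groups of outer automorphisms of free groups of finite rank. -/
theorem onLinear_of_out (h1 : S_OF1.{y}) (h2 : S_OF2.{y}) (h3 : S_OF3.{y}) (h4 : S_OF4.{y})
    (h5 : S_OF5.{y}) (h6 : S_OF6.{y}) (h7 : S_OF7.{y}) (h8 : S_OF8.{y}) (h9 : S_OF9.{y})
    {G : Type w} [Group G] {α : Type y} [Finite α] (ψ : G →* Out (FreeGroup α)) {g : G}
    (hg : ∀ n : ℕ, 0 < n → ψ g ^ n ≠ 1) : OnLinear.{w, z} G g := by
  obtain ⟨φ, hφ⟩ := QuotientGroup.mk_surjective (ψ g)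
  obtain ⟨m, ρ, hρ1, hρ⟩ := exists_rep h1 h2 h3 h4 h5 h6 h7 h8 h9 α φ fun n hn x hx => by
    apply hg n hn
    rw [← hφ, ← QuotientGroup.mk_pow, hx]
    exact (QuotientGroup.eq_one_iff _).2 ⟨x, rfl⟩
  let ρ' : Out (FreeGroup α) →* GL (Fin m) ℚ := QuotientGroup.lift _ ρ (by
    rintro _ ⟨x, rfl⟩
    exact hρ1 x)
  apply OnLinear.up.{w, 0, z}
  intro H _ hgH
  refine ⟨ℚ, inferInstance, m, (ρ'.comp ψ).comp H.subtype, fun k hk h => hρ k hk ?_⟩
  have e : ((ρ'.comp ψ).comp H.subtype) ⟨g, hgH⟩ = ρ φ := by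
    show ρ' (ψ g) = ρ φ
    rw [← hφ]
    rfl
  rw [← e]
  exact h

end Pool.Agent.H416.OF
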